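import Pool.Agent.Helper23_FT.Fd

/-!
# Frey's inequality with the discriminant of `ℚ[x] / (f)` in place of the conductor, for all
# curves `y ^ m = f x` at once

All definitions used by the statement are in `Pool.Agent.Helper79_FreyD.Defs` (`mpoly`, `toQ`,
`num`, `ker`, `gram`, `hW`, `sig`), `Pool.Agent.Helper79_FreyD.Final` (`fieldExp`),
`Pool.Agent.Helper65_FreyD.Irr` (`dq`), `Pool.Agent.Helper65_FreyD.Red` (`prodDisc`) and
`Pool.Agent.Helper65_FreyD.All` (`FreyHoldsSep`, `allExp`).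
-/

namespace Pool.Agent.Results.MP_c59389_nt.FieldDiscriminants

open Helper79FreyD Helper65FreyD FT

/-- Let `n ≥ 3`. There are constants `C₀ m`, `m ≥ 2`, such that for all `0 < t ≤ n` the inequality
`hW m f ≤ κ log (prodDisc f) ^ (m - 1) + C₀ m` with `κ = sig m n / (t (m - 1))` fails, for at least
one `m ≥ 2`, for at most `C H ^ (n - 1 + (E - 1 / 2) t)` of the irreducible and for at most
`C' H ^ (n - 1 + E' t)` of the polynomials without multiple root among the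
`f = x ^ n + a_(n-2) x ^ (n-2) + ... + a_0` with integers `|a_i| ≤ H ^ (n - i)`, for all
`E > fieldExp n` and `E' > allExp n`. -/
theorem result (n : ℕ) (hn : 3 ≤ n) : ∃ C₀ : ℕ → ℝ, ∀ t : ℝ, 0 < t → t ≤ n →
    (∀ E : ℝ, fieldExp n < E → ∃ C : ℝ, ∀ H : ℕ, 1 ≤ H →
      ({a : Fin (n - 1) → ℤ | (∀ i, |a i| ≤ (H : ℤ) ^ (n - (i : ℕ))) ∧
        Irreducible (toQ (mpoly n a)) ∧ ∃ m, 2 ≤ m ∧
          ¬ FreyHoldsSep m (sig m n / (t * (m - 1))) (C₀ m) (mpoly n a)}.ncard : ℝ) ≤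
      C * (H : ℝ) ^ ((n : ℝ) - 1 + (E - 1 / 2) * t)) ∧
    (∀ E : ℝ, allExp n < E → ∃ C : ℝ, ∀ H : ℕ, 1 ≤ H →
      ({a : Fin (n - 1) → ℤ | (∀ i, |a i| ≤ (H : ℤ) ^ (n - (i : ℕ))) ∧
        (toQ (mpoly n a)).Separable ∧ ∃ m, 2 ≤ m ∧
          ¬ FreyHoldsSep m (sig m n / (t * (m - 1))) (C₀ m) (mpoly n a)}.ncard : ℝ) ≤
      C * (H : ℝ) ^ ((n : ℝ) - 1 + E * t)) :=
  fd_all n hn

end Pool.Agent.Results.MP_c59389_nt.FieldDiscriminants
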