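import Pool.Agent.Helper80_EVF.AllF

/-!
# Frey's inequality at one hundred percent of the integral points of every algebraic family

The definitions used by the statement are in `Pool.Agent.EVF.Defs`.
-/

namespace Pool.Agent.Results.MP_c59389_nt.IntegralPoints

open MvPolynomial Pool.Agent.EVF

/-- `M` is a family of symmetric `r × r` matrices with entries in `ℤ[x, y]`, depending on `k`
integral parameters `t_i` of weights `W i`, and `φ j` are nodal polynomials in the parameters. If
for every nonempty set `I` of slots the sum of the weights of the slots in `I` is less than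
`c (card I)` times the sum over `j` of `min (degree of φ j in t_(l j)) 2 * W (l j)`, then one
hundred percent of the members satisfy Frey's inequality with the constants `c`. -/
theorem result (k r : ℕ) (s : Shape r) (W : Fin k → ℕ) (M : FMat k r) (hs : s.Good)
    (hW : ∀ i, 1 ≤ W i) (hM : FamShape s W M) (htop : TopWeight s W M)
    (hred : ∃ t, Reduced s (spec M t)) (m : ℕ) (l : Fin m → Fin k)
    (φ : Fin m → MvPolynomial (Fin k) ℤ) (hφ : ∀ j, Nodal s M (φ j))
    (hdeg : ∀ j, 1 ≤ degreeOf (l j) (φ j)) (hass : ∀ i j, i ≠ j → ¬ Associated (φ i) (φ j))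
    (c : ℕ → ℝ) (hc : ∀ n, 0 ≤ c n)
    (hI : ∀ I : Finset (Fin r × ℕ × ℕ), I.Nonempty → (∀ x ∈ I, s.Slot x) →
      ∑ x ∈ I, s.omega x < (∑ j, min (degreeOf (l j) (φ j)) 2 * W (l j) : ℕ) * c I.card)
    (ε : ℝ) (hε : 0 < ε) :
    ∃ B₀ : ℕ, ∀ B : ℕ, B₀ ≤ B →
      ({t : Fin k → ℤ | (∀ i, |t i| ≤ (B : ℤ) ^ W i) ∧ ¬ FreyHolds s c (spec M t)}.ncard : ℝ) ≤
        ε * (B : ℝ) ^ (∑ i, W i) :=
  H80.integral_points k r s W M hs hW hM htop hred m l φ hφ hdeg hass c hc hI ε hε

end Pool.Agent.Results.MP_c59389_nt.IntegralPoints
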