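import Pool.Agent.Helper40_EVF.FinB
import Pool.Agent.Helper40_EVF.FinG

/-!
# Frey's inequality for the fibres of a family over the projective line

All definitions used by the statement are in `Pool.Agent.EVF.Defs`. The proof is the work of the
squad EVF; the closures are in `Pool.Agent.Helper40_EVF`.
-/

namespace Pool.Agent.Results.MP_c59389_nt.RationalFibres

open Pool.Agent.EVF MvPolynomial

/-- Let `M` be a symmetric matrix with entries in `ℤ[t₀, t₁][x, y]` of the good shape `s`, whose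
coefficients are binary forms in the parameters (both of weight `W`), with a monomial
`y ^ (deg / v)` in its determinant and with a reduced member. Let `φ j`, `j < m`, `1 ≤ m`, be
irreducible binary forms of degrees `d j`, pairwise not associated, which are nodal for the
family.

(1) Let `c n ≥ 0` be constants with `∑_I omega < W * (∑ min (d j) 4) * c |I|` for every nonempty
set `I` of slots (monomials `x ^ a y ^ b` in a row `i` of a form, of weight
`omega = wt + m i - α (a + 1) - β (b + 1)`). There are `C` and `η > 0` such that for all `H ≥ 1`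
at most `C * H ^ (2 - η)` coprime pairs `t` with `|t l| ≤ H` violate `FreyHolds s c` for the
member at `t`.

(2) If `2 ≤ ∑ d j`, for every `ε > 0` there are `κ` and `C` such that for all `H ≥ 1` at most
`C * H ^ ε` of these pairs violate `FreyHolds s c`, where `c n = κ * n`. -/
theorem result (r : ℕ) (s : Shape r) (hs : s.Good) (W : ℕ) (hW : 1 ≤ W) (M : FMat 2 r)
    (hM : FamShape s (fun _ => W) M) (hhom : FamHom s W M) (htop : coeff (topE s) M.det ≠ 0)
    (hred : ∃ t, Reduced s (spec M t)) (m : ℕ) (hm : 1 ≤ m)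
    (φ : Fin m → MvPolynomial (Fin 2) ℤ) (d : Fin m → ℕ)
    (hφ : ∀ j, (φ j).IsHomogeneous (d j) ∧ Irreducible (φ j) ∧ NodalForm s W M (φ j))
    (hne : ∀ i j, i ≠ j → ¬ Associated (φ i) (φ j)) :
    (∀ c : ℕ → ℝ, (∀ n, 0 ≤ c n) →
      (∀ I : Finset (Fin r × ℕ × ℕ), I.Nonempty → (∀ x ∈ I, s.Slot x) →
        ∑ x ∈ I, s.omega x < W * ((∑ j, min (d j) 4 : ℕ) : ℝ) * c I.card) →
      ∃ C η : ℝ, 0 < η ∧ ∀ H : ℕ, 1 ≤ H →
        ({t : Fin 2 → ℤ | IsCoprime (t 0) (t 1) ∧ (∀ l, |t l| ≤ (H : ℤ)) ∧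
          ¬ FreyHolds s c (spec M t)}.ncard : ℝ) ≤ C * (H : ℝ) ^ (2 - η)) ∧
    (2 ≤ ∑ j, d j → ∀ ε : ℝ, 0 < ε → ∃ κ C : ℝ, ∀ H : ℕ, 1 ≤ H →
      ({t : Fin 2 → ℤ | IsCoprime (t 0) (t 1) ∧ (∀ l, |t l| ≤ (H : ℤ)) ∧
        ¬ FreyHolds s (fun n => κ * n) (spec M t)}.ncard : ℝ) ≤ C * (H : ℝ) ^ ε) := by
  have h := rational_of_gmn gmn_all gm2_all r s W M hs hW hM hhom htop hred m φ d hm hφ hne
  have hset : ∀ (c : ℕ → ℝ) (H : ℕ), {t : Fin 2 → ℤ | IsCoprime (t 0) (t 1) ∧
      (∀ l, |t l| ≤ (H : ℤ)) ∧ ¬ FreyHolds s c (spec M t)} =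
      {t : Fin 2 → ℤ | t ∈ TB H ∧ ¬ FreyHolds s c (spec M t)} := by
    intro c H
    ext t
    exact and_assoc.symm
  simp only [hset]
  exact h

end Pool.Agent.Results.MP_c59389_nt.RationalFibres
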