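import Pool.Agent.Helper23_FT.AllM
import Pool.Agent.Helper60_FT.S
import Pool.Agent.Helper60_FT.F
import Pool.Agent.Helper69_FT.R12
import Pool.Agent.Helper69_FT.R3

/-!
# One thin exceptional set for Frey's inequality, for all curves `y ^ m = f x`

All definitions used by the statement are in `Pool.Agent.Helper79_FreyD.Defs` (`mpoly`, `toQ`,
`num`, `ker`, `gram`, `hW`, `sig`), `Pool.Agent.Helper79_FreyD.Final` (`fieldExp`),
`Pool.Agent.Helper65_FreyD.Irr` (`dq`), `Pool.Agent.Helper65_FreyD.Red` (`prodDisc`),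
`Pool.Agent.Helper65_FreyD.All` (`allExp`) and `Pool.Agent.Helper23_FT.Defs` (`extraPrimes`,
`Nstar`, `FreyHoldsStar`).
-/

namespace Pool.Agent.Results.MP_c59389_nt.ThinExceptions

open Helper79FreyD Helper65FreyD FT

/-- Let `n ≥ 3` and `t > 0`. There are constants `C₀ m`, `m ≥ 2`, such that for all `μ ≥ 1` and
`E > max (fieldExp n) (allExp n)` the following holds: at most `C H ^ (E t + n (n - 1) / μ)` of the
polynomials `f = x ^ n + a_(n-2) x ^ (n-2) + ... + a_0` with integers `|a_i| ≤ H ^ (n - i)` and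
without multiple root violate, for at least one `m ≥ 2`, the inequality
`hW m f ≤ κ log (Nstar m μ f) ^ (m - 1) + C₀ m` with `κ = sig m n / (t (m - 1))`. -/
theorem result (n : ℕ) (hn : 3 ≤ n) (t : ℝ) (ht : 0 < t) :
    ∃ C₀ : ℕ → ℝ, ∀ μ : ℕ, 1 ≤ μ → ∀ E : ℝ, max (fieldExp n) (allExp n) < E →
      ∃ C : ℝ, ∀ H : ℕ, 1 ≤ H →
        ({a : Fin (n - 1) → ℤ | (∀ i, |a i| ≤ (H : ℤ) ^ (n - (i : ℕ))) ∧
          (toQ (mpoly n a)).Separable ∧ ∃ m, 2 ≤ m ∧
            ¬ FreyHoldsStar m μ (sig m n / (t * (m - 1))) (C₀ m) (mpoly n a)}.ncard : ℝ) ≤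
        C * (H : ℝ) ^ (E * t + (n : ℝ) * (n - 1) / μ) :=
  final_all H60.s (H60.f H69.r3) H69.r1 H69.r2 n hn t ht

end Pool.Agent.Results.MP_c59389_nt.ThinExceptions
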